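import Pool.Agent.Work.MP_6f78fb_rk.Interface

/-!
# Block VSP: the placement monomials span
-/

open scoped BigOperators TensorProduct
open Classical

noncomputable section

namespace Pool.RookLC.helper56

open Pool.RookLC

variable {n m : ℕ}

theorem sq_mem (hRG : Stmt_RG) (r : ℕ) (p : Fin n × Fin m) :
    (MvPolynomial.X p ^ 2 : Poly n m) ∈ grI (UZ n m r) := by
  refine (hRG n m (UZ n m r) 2 _ (MvPolynomial.isHomogeneous_X_pow p 2)).2
    ⟨-MvPolynomial.X p, Or.inr ?_, ?_⟩
  · rw [MvPolynomial.totalDegree_neg, MvPolynomial.totalDegree_X]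
    norm_num
  · intro x hx
    simp only [map_add, map_neg, map_pow, MvPolynomial.eval_X]
    rcases hx.1.1 p with h | h <;> rw [h] <;> norm_num

theorem row_mem (hRG : Stmt_RG) (r : ℕ) (a : Fin n) {j j' : Fin m} (hj : j ≠ j') :
    (MvPolynomial.X (a, j) * MvPolynomial.X (a, j') : Poly n m) ∈ grI (UZ n m r) := by
  refine (hRG n m (UZ n m r) 2 _
    ((MvPolynomial.isHomogeneous_X ℂ (a, j)).mul (MvPolynomial.isHomogeneous_X ℂ (a, j')))).2
    ⟨0, Or.inl rfl, ?_⟩
  intro x hx
  simp only [add_zero, map_mul, MvPolynomial.eval_X]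
  rcases hx.1.1 (a, j) with h | h
  · rw [h, zero_mul]
  rcases hx.1.1 (a, j') with h' | h'
  · rw [h', mul_zero]
  exact absurd (hx.1.2.1 a j j' h h') hj

theorem col_mem (hRG : Stmt_RG) (r : ℕ) (j : Fin m) {a a' : Fin n} (ha : a ≠ a') :
    (MvPolynomial.X (a, j) * MvPolynomial.X (a', j) : Poly n m) ∈ grI (UZ n m r) := by
  refine (hRG n m (UZ n m r) 2 _
    ((MvPolynomial.isHomogeneous_X ℂ (a, j)).mul (MvPolynomial.isHomogeneous_X ℂ (a', j)))).2
    ⟨0, Or.inl rfl, ?_⟩
  intro x hx
  simp only [add_zero, map_mul, MvPolynomial.eval_X]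
  rcases hx.1.1 (a, j) with h | h
  · rw [h, zero_mul]
  rcases hx.1.1 (a', j) with h' | h'
  · rw [h', mul_zero]
  exact absurd (hx.1.2.2 a a' j h h') ha

theorem mon_mem_of_le {I : Ideal (Poly n m)} {u v : (Fin n × Fin m) →₀ ℕ} (h : v ≤ u) (c : ℂ)
    (hv : MvPolynomial.monomial v (1 : ℂ) ∈ I) : MvPolynomial.monomial u c ∈ I := by
  obtain ⟨w, rfl⟩ := exists_add_of_le h
  have h1 : MvPolynomial.monomial (v + w) c =
      MvPolynomial.monomial w c * MvPolynomial.monomial v (1 : ℂ) := by
    rw [MvPolynomial.monomial_mul, mul_one, add_comm]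
  rw [h1]
  exact I.mul_mem_left _ hv

theorem two_mem {I : Ideal (Poly n m)} {u : (Fin n × Fin m) →₀ ℕ} {p q : Fin n × Fin m}
    (hpq : p ≠ q) (hp : u p ≠ 0) (hq : u q ≠ 0) (c : ℂ)
    (hv : (MvPolynomial.X p * MvPolynomial.X q : Poly n m) ∈ I) :
    MvPolynomial.monomial u c ∈ I := by
  refine mon_mem_of_le (v := Finsupp.single p 1 + Finsupp.single q 1) ?_ c ?_
  · intro x
    simp only [Finsupp.add_apply, Finsupp.single_apply]
    by_cases h1 : p = x
    · subst h1
      rw [if_pos rfl, if_neg (fun h => hpq h.symm)]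
      omega
    · rw [if_neg h1]
      by_cases h2 : q = x
      · subst h2
        rw [if_pos rfl]
        omega
      · rw [if_neg h2]
        omega
  · have h1 : (MvPolynomial.X p * MvPolynomial.X q : Poly n m) =
        MvPolynomial.monomial (Finsupp.single p 1 + Finsupp.single q 1) (1 : ℂ) := by
      unfold MvPolynomial.X
      rw [MvPolynomial.monomial_mul, mul_one]
    rw [← h1]
    exact hv

theorem mono_case (hRG : Stmt_RG) (r d : ℕ) (u : (Fin n × Fin m) →₀ ℕ) (hu : u.degree = d)
    (c : ℂ) : MvPolynomial.monomial u c ∈ grI (UZ n m r) ∨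
      ∃ α : Cf n m, Um d α ∧ MvPolynomial.monomial u c = c • mon α := by
  by_cases h1 : ∃ p, 2 ≤ u p
  · obtain ⟨p, hp⟩ := h1
    left
    refine mon_mem_of_le (v := Finsupp.single p 2) ?_ c ?_
    · intro x
      rw [Finsupp.single_apply]
      split_ifs with h
      · rw [← h]; exact hp
      · exact Nat.zero_le _
    · have h2 : (MvPolynomial.X p ^ 2 : Poly n m) =
          MvPolynomial.monomial (Finsupp.single p 2) (1 : ℂ) := MvPolynomial.X_pow_eq_monomial
      rw [← h2]
      exact sq_mem hRG r p
  by_cases h2 : ∃ a j j', j ≠ j' ∧ u (a, j) ≠ 0 ∧ u (a, j') ≠ 0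
  · obtain ⟨a, j, j', hj, h3, h4⟩ := h2
    left
    exact two_mem (fun h => hj (congrArg Prod.snd h)) h3 h4 c (row_mem hRG r a hj)
  by_cases h3 : ∃ a a' j, a ≠ a' ∧ u (a, j) ≠ 0 ∧ u (a', j) ≠ 0
  · obtain ⟨a, a', j, ha, h3, h4⟩ := h3
    left
    exact two_mem (fun h => ha (congrArg Prod.fst h)) h3 h4 c (col_mem hRG r j ha)
  right
  push Not at h1 h2 h3
  let α : Cf n m := fun a => if h : ∃ j, u (a, j) ≠ 0 then some (some h.choose) else none
  have hα1 : ∀ a j, u (a, j) ≠ 0 → α a = some (some j) := by
    intro a j hj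
    have h : ∃ j, u (a, j) ≠ 0 := ⟨j, hj⟩
    simp only [α, dif_pos h]
    by_contra hne
    have h4 : h.choose ≠ j := fun h5 => hne (by rw [h5])
    exact hj (h2 a h.choose j h4 h.choose_spec)
  have hα2 : ∀ a j, α a = some (some j) → u (a, j) ≠ 0 := by
    intro a j hj
    by_cases h : ∃ j, u (a, j) ≠ 0
    · simp only [α, dif_pos h, Option.some.injEq] at hj
      rw [← hj]
      exact h.choose_spec
    · simp only [α, dif_neg h] at hj
      exact absurd hj (by simp)
  have hα3 : ∀ a, α a = none → ∀ j, u (a, j) = 0 := by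
    intro a ha j
    by_contra hj
    rw [hα1 a j hj] at ha
    exact absurd ha (by simp)
  have hα4 : ∀ a, α a ≠ some none := by
    intro a ha
    by_cases h : ∃ j, u (a, j) ≠ 0
    · simp only [α, dif_pos h] at ha
      exact absurd ha (by simp)
    · simp only [α, dif_neg h] at ha
      exact absurd ha (by simp)
  have hu1 : ∀ a j, α a = some (some j) → u (a, j) = 1 := by
    intro a j hj
    have := hα2 a j hj
    have := h1 (a, j)
    omega
  have hu2 : ∀ a j j', α a = some (some j) → j' ≠ j → u (a, j') = 0 := by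
    intro a j j' hj hjj
    by_contra h
    have := hα1 a j' h
    rw [hj] at this
    simp only [Option.some.injEq] at this
    exact hjj this.symm
  refine ⟨α, ⟨?_, ?_, ?_⟩, ?_⟩
  · intro a b j ha hb
    by_contra hab
    exact (hα2 b j hb) (h3 a b j hab (hα2 a j ha))
  · unfold tt
    rw [Finset.card_eq_zero, Finset.filter_eq_empty_iff]
    intro a _
    exact hα4 a
  · unfold dd
    rw [← hu, Finsupp.degree_eq_sum, Fintype.sum_prod_type, Finset.card_filter]
    refine Finset.sum_congr rfl fun a _ => ?_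
    rcases hcase : α a with _ | s
    · simp only [ne_eq, not_true_eq_false, if_false]
      symm
      exact Finset.sum_eq_zero fun j _ => hα3 a hcase j
    · rcases s with _ | j
      · exact absurd hcase (hα4 a)
      · simp only [ne_eq, reduceCtorEq, not_false_eq_true, if_true]
        rw [Finset.sum_eq_single j]
        · exact (hu1 a j hcase).symm
        · intro j' _ hj'
          exact hu2 a j j' hcase hj'
        · intro h
          exact absurd (Finset.mem_univ j) h
  · unfold mon
    rw [MvPolynomial.monomial_eq, Finsupp.prod_fintype _ _ (fun p => pow_zero _),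
      Fintype.prod_prod_type, ← MvPolynomial.smul_eq_C_mul]
    congr 1
    refine Finset.prod_congr rfl fun a _ => ?_
    rcases hcase : α a with _ | s
    · simp only [val]
      exact Finset.prod_eq_one fun j _ => by rw [hα3 a hcase j, pow_zero]
    · rcases s with _ | j
      · exact absurd hcase (hα4 a)
      · simp only [val]
        rw [Finset.prod_eq_single j]
        · rw [hu1 a j hcase, pow_one]
        · intro j' _ hj'
          rw [hu2 a j j' hcase hj', pow_zero]
        · intro h
          exact absurd (Finset.mem_univ j) h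

theorem Th_single (α : Cf n m) (c : ℂ) :
    Th n m (fun β => if β = α then c else 0) = c • mon α := by
  show ∑ β, (if β = α then c else 0) • mon β = c • mon α
  rw [Finset.sum_eq_single α]
  · rw [if_pos rfl]
  · intro β _ hβ
    rw [if_neg hβ, zero_smul]
  · intro h
    exact absurd (Finset.mem_univ α) h

theorem stmt_VSP (hRG : Stmt_RG) : Stmt_VSP := by
  intro n m r d f hf
  have key : ∀ s : Finset ((Fin n × Fin m) →₀ ℕ), (∀ u ∈ s, u.degree = d) →
      ∀ co : ((Fin n × Fin m) →₀ ℕ) → ℂ,
      ∃ φ : Fn n m, (∀ α, φ α ≠ 0 → Um d α) ∧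
        (∑ u ∈ s, MvPolynomial.monomial u (co u)) - Th n m φ ∈ grI (UZ n m r) := by
    intro s
    induction s using Finset.induction_on with
    | empty =>
      intro _ co
      refine ⟨0, fun α h => absurd rfl h, ?_⟩
      simp
    | insert u s hus ih =>
      intro hs co
      obtain ⟨φ, hφ1, hφ2⟩ := ih (fun v hv => hs v (Finset.mem_insert_of_mem hv)) co
      rw [Finset.sum_insert hus]
      rcases mono_case hRG r d u (hs u (Finset.mem_insert_self _ _)) (co u) with h | ⟨α, hα, h⟩
      · refine ⟨φ, hφ1, ?_⟩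
        rw [add_sub_assoc]
        exact Ideal.add_mem _ h hφ2
      · refine ⟨(fun β => if β = α then co u else 0) + φ, ?_, ?_⟩
        · intro β hβ
          by_cases h1 : β = α
          · rw [h1]; exact hα
          · apply hφ1
            intro h2
            apply hβ
            rw [Pi.add_apply, h2, add_zero]
            exact if_neg h1
        · rw [map_add, Th_single, h, add_sub_add_left_eq_sub]
          exact hφ2
  obtain ⟨φ, h1, h2⟩ := key f.support (fun u hu => by
    have := hf (MvPolynomial.mem_support_iff.1 hu)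
    rw [← this, Finsupp.degree_eq_weight_one]
    rfl) (fun u => MvPolynomial.coeff u f)
  refine ⟨φ, h1, ?_⟩
  rw [← MvPolynomial.as_sum f] at h2
  exact h2

end Pool.RookLC.helper56
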