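import Pool.Agent.Work.MP_6f78fb_rk.Interface

/-!
# Block ORT: orthogonal decomposition inside stable subspaces
-/

open scoped BigOperators TensorProduct
open Classical

noncomputable section

namespace Pool.RookLC.helper56

open Pool.RookLC

theorem stmt_ORT : Stmt_ORT := by
  intro A B _ _ U U' hUU W W' hW hW' f hf
  let e : EuclideanSpace ℂ A ≃ₗ[ℂ] (A → ℂ) := WithLp.linearEquiv 2 ℂ (A → ℂ)
  let Y : Submodule ℂ (EuclideanSpace ℂ A) := (W'.map U).map e.symm.toLinearMap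
  obtain ⟨y, hy, z, hz, hyz⟩ := Submodule.exists_add_mem_mem_orthogonal (K := Y) (e.symm f)
  obtain ⟨u, hu, rfl⟩ := hy
  obtain ⟨χ, hχ, rfl⟩ := hu
  have hf0 : e z = f - U χ := by
    have h1 : z = e.symm f - e.symm (U χ) := by
      rw [hyz]
      simp
    rw [h1, map_sub, LinearEquiv.apply_symm_apply, LinearEquiv.apply_symm_apply]
  refine ⟨f - U χ, W.sub_mem hf (hW χ hχ), χ, hχ, by simp, ?_⟩
  set f0 : A → ℂ := f - U χ with hf0def
  have hf0W : f0 ∈ W := W.sub_mem hf (hW χ hχ)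
  have horth : ∀ χ' ∈ W', ∑ a, (starRingEnd ℂ) (f0 a) * U χ' a = 0 := by
    intro χ' hχ'
    have h1 := hz (e.symm (U χ')) ⟨U χ', ⟨χ', hχ', rfl⟩, rfl⟩
    rw [PiLp.inner_apply] at h1
    have h2 := congrArg (starRingEnd ℂ) h1
    rw [map_sum, map_zero] at h2
    rw [← h2]
    refine Finset.sum_congr rfl fun a _ => ?_
    have h3 : z.ofLp a = f0 a := congrFun hf0 a
    have h4 : (e.symm (U χ')).ofLp a = U χ' a := rfl
    rw [RCLike.inner_apply, h3, h4, map_mul, Complex.conj_conj]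
  have h5 := horth (U' f0) (hW' f0 hf0W)
  rw [hUU f0 (U' f0)] at h5
  have h6 : ∀ b, (starRingEnd ℂ) (U' f0 b) * U' f0 b = ((‖U' f0 b‖ ^ 2 : ℝ) : ℂ) := by
    intro b
    rw [mul_comm, Complex.mul_conj, Complex.normSq_eq_norm_sq]
  simp only [h6] at h5
  rw [← Complex.ofReal_sum, Complex.ofReal_eq_zero] at h5
  funext b
  have h7 := (Finset.sum_eq_zero_iff_of_nonneg (fun b _ => by positivity)).1 h5 b (Finset.mem_univ b)
  simpa using h7

end Pool.RookLC.helper56
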