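import Pool.Agent.Work.MP_6f78fb_rk_helper56.VSP

/-!
# Block LRED: reduction to label-harmonic functions if all columns are full
-/

open scoped BigOperators TensorProduct
open Classical

noncomputable section

namespace Pool.RookLC.helper56

open Pool.RookLC

variable {n m : ℕ}

/-- each column sum minus one vanishes on placements with all columns full -/
theorem col_sum_mem (hRG : Stmt_RG) (j : Fin m) :
    (∑ a : Fin n, MvPolynomial.X (a, j) : Poly n m) ∈ grI (UZ n m m) := by
  refine (hRG n m (UZ n m m) 1 _ ?_).2 ⟨-1, Or.inr ?_, ?_⟩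
  · exact MvPolynomial.IsHomogeneous.sum _ _ _ fun a _ => MvPolynomial.isHomogeneous_X ℂ (a, j)
  · rw [MvPolynomial.totalDegree_neg, MvPolynomial.totalDegree_one]
    norm_num
  · intro x hx
    obtain ⟨⟨h0, h1, h2⟩, hr⟩ := hx
    simp only [map_add, map_neg, map_one, map_sum, MvPolynomial.eval_X]
    have hinj : Set.InjOn (Prod.snd : Fin n × Fin m → Fin m)
        (Finset.univ.filter fun p => x p = 1 : Finset (Fin n × Fin m)) := by
      rintro ⟨a, k⟩ hp ⟨b, l⟩ hq hpq
      simp only [Finset.coe_filter, Finset.mem_univ, true_and, Set.mem_ofPred_eq] at hp hq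
      simp only at hpq
      subst hpq
      rw [h2 a b k hp hq]
    have hsurj : (Finset.univ.filter fun p => x p = 1 : Finset (Fin n × Fin m)).image Prod.snd
        = Finset.univ := by
      apply Finset.eq_univ_of_card
      rw [Finset.card_image_of_injOn hinj]
      apply le_antisymm
      · rw [← Finset.card_image_of_injOn hinj]
        exact Finset.card_le_univ _
      · rw [Fintype.card_fin]
        exact hr
    have hj : j ∈ (Finset.univ.filter fun p => x p = 1 : Finset (Fin n × Fin m)).image
        Prod.snd := by
      rw [hsurj]; exact Finset.mem_univ j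
    rw [Finset.mem_image] at hj
    obtain ⟨⟨a, k⟩, hp, hk⟩ := hj
    simp only at hk
    subst hk
    rw [Finset.mem_filter] at hp
    rw [Finset.sum_eq_single a]
    · rw [hp.2]; norm_num
    · intro b _ hb
      rcases h0 (b, k) with h | h
      · exact h
      · exact absurd (h2 b a k h hp.2) hb
    · intro h
      exact absurd (Finset.mem_univ a) h

/-- removing and adding a rook -/
theorem reindex {X : Type*} [AddCommMonoid X] (F : Cf n m → Cf n m × Fin m → X) :
    ∑ q : Cf n m × Fin m, ∑ b ∈ Finset.univ.filter (fun b => q.1 b = none),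
      F (Function.update q.1 b (some (some q.2))) q =
    ∑ A : Cf n m, ∑ b : Fin n, ∑ j : Fin m,
      if A b = some (some j) then F A (Function.update A b none, j) else 0 := by
  rw [Fintype.sum_prod_type, Finset.sum_comm]
  simp only [Finset.sum_filter]
  have h1 : ∀ (j : Fin m) (b : Fin n),
      ∑ α : Cf n m, (if α b = none then F (Function.update α b (some (some j))) (α, j) else 0) =
      ∑ A : Cf n m, (if A b = some (some j) then F A (Function.update A b none, j) else 0) := by
    intro j b
    rw [← Finset.sum_filter, ← Finset.sum_filter]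
    refine Finset.sum_bij' (fun α _ => Function.update α b (some (some j)))
      (fun A _ => Function.update A b none) ?_ ?_ ?_ ?_ ?_
    · intro α hα
      rw [Finset.mem_filter] at hα ⊢
      exact ⟨Finset.mem_univ _, by simp⟩
    · intro A hA
      rw [Finset.mem_filter] at hA ⊢
      exact ⟨Finset.mem_univ _, by simp⟩
    · intro α hα
      rw [Finset.mem_filter] at hα
      simp only [Function.update_idem]
      rw [← hα.2, Function.update_eq_self]
    · intro A hA
      rw [Finset.mem_filter] at hA
      simp only [Function.update_idem]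
      rw [← hA.2, Function.update_eq_self]
    · intro α hα
      rw [Finset.mem_filter] at hα
      simp only [Function.update_idem]
      rw [← hα.2, Function.update_eq_self]
  calc ∑ j : Fin m, ∑ α : Cf n m, ∑ b : Fin n,
        (if α b = none then F (Function.update α b (some (some j))) (α, j) else 0)
      = ∑ j : Fin m, ∑ b : Fin n, ∑ α : Cf n m,
        (if α b = none then F (Function.update α b (some (some j))) (α, j) else 0) :=
        Finset.sum_congr rfl fun j _ => Finset.sum_comm
    _ = ∑ j : Fin m, ∑ b : Fin n, ∑ A : Cf n m,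
        (if A b = some (some j) then F A (Function.update A b none, j) else 0) :=
        Finset.sum_congr rfl fun j _ => Finset.sum_congr rfl fun b _ => h1 j b
    _ = ∑ j : Fin m, ∑ A : Cf n m, ∑ b : Fin n,
        (if A b = some (some j) then F A (Function.update A b none, j) else 0) :=
        Finset.sum_congr rfl fun j _ => Finset.sum_comm
    _ = ∑ A : Cf n m, ∑ j : Fin m, ∑ b : Fin n,
        (if A b = some (some j) then F A (Function.update A b none, j) else 0) := Finset.sum_comm
    _ = _ := Finset.sum_congr rfl fun A _ => Finset.sum_comm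

/-- the adding operator -/
def Uop (n m : ℕ) : (Cf n m × Fin m → ℂ) →ₗ[ℂ] (Cf n m → ℂ) where
  toFun χ := fun A => ∑ b : Fin n, ∑ j : Fin m,
    if A b = some (some j) then χ (Function.update A b none, j) else 0
  map_add' := by
    intro f g; funext A
    simp only [Pi.add_apply]
    rw [← Finset.sum_add_distrib]
    refine Finset.sum_congr rfl fun b _ => ?_
    rw [← Finset.sum_add_distrib]
    refine Finset.sum_congr rfl fun j _ => ?_
    split_ifs
    · rfl
    · rw [add_zero]
  map_smul' := by
    intro c f; funext A
    simp only [Pi.smul_apply, smul_eq_mul, RingHom.id_apply, Finset.mul_sum, mul_ite, mul_zero]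

/-- the removing operator -/
def Uop' (n m : ℕ) : (Cf n m → ℂ) →ₗ[ℂ] (Cf n m × Fin m → ℂ) where
  toFun f := fun q => ∑ b ∈ Finset.univ.filter (fun b => q.1 b = none),
    f (Function.update q.1 b (some (some q.2)))
  map_add' := by
    intro f g; funext q
    simp only [Pi.add_apply, Finset.sum_add_distrib]
  map_smul' := by
    intro c f; funext q
    simp only [Pi.smul_apply, smul_eq_mul, RingHom.id_apply, Finset.mul_sum]

theorem Uop_adj (f : Cf n m → ℂ) (χ : Cf n m × Fin m → ℂ) :
    ∑ a, (starRingEnd ℂ) (f a) * Uop n m χ a =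
      ∑ b, (starRingEnd ℂ) (Uop' n m f b) * χ b := by
  have h := reindex (n := n) (m := m) (fun A q => (starRingEnd ℂ) (f A) * χ q)
  have h1 : ∀ a, (starRingEnd ℂ) (f a) * Uop n m χ a = ∑ b : Fin n, ∑ j : Fin m,
      if a b = some (some j) then (starRingEnd ℂ) (f a) * χ (Function.update a b none, j)
      else 0 := by
    intro a
    show (starRingEnd ℂ) (f a) * (∑ b : Fin n, ∑ j : Fin m, _) = _
    simp only [Finset.mul_sum, mul_ite, mul_zero]
  have h2 : ∀ q, (starRingEnd ℂ) (Uop' n m f q) * χ q =
      ∑ b ∈ Finset.univ.filter (fun b => q.1 b = none),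
        (starRingEnd ℂ) (f (Function.update q.1 b (some (some q.2)))) * χ q := by
    intro q
    show (starRingEnd ℂ) (∑ b ∈ _, _) * χ q = _
    rw [map_sum, Finset.sum_mul]
  rw [Finset.sum_congr rfl fun a _ => h1 a, Finset.sum_congr rfl fun q _ => h2 q]
  exact h.symm

/-- supports of the functions `χ` -/
def Um' (d : ℕ) (q : Cf n m × Fin m) : Prop :=
  Valid q.1 ∧ tt q.1 = 0 ∧ dd q.1 + 1 = d ∧ q.2 ∉ cols q.1

theorem Um_update (d : ℕ) (α : Cf n m) (b : Fin n) (j : Fin m) (hb : α b = none) :
    Um d (Function.update α b (some (some j))) ↔ Um' d (α, j) := by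
  have hd : dd (Function.update α b (some (some j))) = dd α + 1 := by
    unfold dd
    have : (Finset.univ.filter fun a => Function.update α b (some (some j)) a ≠ none) =
        insert b (Finset.univ.filter fun a => α a ≠ none) := by
      ext a
      simp only [Finset.mem_filter, Finset.mem_univ, true_and, Finset.mem_insert]
      by_cases h : a = b
      · subst h; simp
      · rw [Function.update_of_ne h]; simp [h]
    rw [this, Finset.card_insert_of_notMem]
    simp [hb]
  have ht : tt (Function.update α b (some (some j))) = tt α := by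
    unfold tt
    congr 1
    ext a
    simp only [Finset.mem_filter, Finset.mem_univ, true_and]
    by_cases h : a = b
    · subst h; simp [hb]
    · rw [Function.update_of_ne h]
  have hv : Valid (Function.update α b (some (some j))) ↔ Valid α ∧ j ∉ cols α := by
    constructor
    · intro h
      refine ⟨?_, ?_⟩
      · intro a c k ha hc
        have ha' : a ≠ b := by rintro rfl; rw [hb] at ha; simp at ha
        have hc' : c ≠ b := by rintro rfl; rw [hb] at hc; simp at hc
        exact h a c k (by rw [Function.update_of_ne ha']; exact ha)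
          (by rw [Function.update_of_ne hc']; exact hc)
      · intro hj
        unfold cols at hj
        rw [Finset.mem_filter] at hj
        obtain ⟨_, a, ha⟩ := hj
        have ha' : a ≠ b := by rintro rfl; rw [hb] at ha; simp at ha
        exact ha' (h a b j (by rw [Function.update_of_ne ha']; exact ha) (by simp))
    · rintro ⟨h1, h2⟩ a c k ha hc
      have hj : ∀ x, α x ≠ some (some j) := by
        intro x hx
        apply h2
        unfold cols
        rw [Finset.mem_filter]
        exact ⟨Finset.mem_univ _, x, hx⟩
      by_cases ha' : a = b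
      · subst ha'
        by_cases hc' : c = a
        · exact hc'.symm
        · rw [Function.update_of_ne hc'] at hc
          simp only [Function.update_self, Option.some.injEq] at ha
          rw [← ha] at hc
          exact absurd hc (hj c)
      · rw [Function.update_of_ne ha'] at ha
        by_cases hc' : c = b
        · subst hc'
          simp only [Function.update_self, Option.some.injEq] at hc
          rw [← hc] at ha
          exact absurd ha (hj a)
        · rw [Function.update_of_ne hc'] at hc
          exact h1 a c k ha hc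
  unfold Um Um'
  rw [hd, ht, hv]
  tauto

/-- functions supported on a set -/
def suppSub {A : Type*} (P : A → Prop) : Submodule ℂ (A → ℂ) where
  carrier := {f | ∀ a, f a ≠ 0 → P a}
  zero_mem' := fun a h => absurd rfl h
  add_mem' := by
    intro f g hf hg a h
    by_contra hv
    have h1 : f a = 0 := by by_contra h1; exact hv (hf a h1)
    have h2 : g a = 0 := by by_contra h2; exact hv (hg a h2)
    exact h (by rw [Pi.add_apply, h1, h2, add_zero])
  smul_mem' := by
    intro c f hf a h
    exact hf a (fun h1 => h (by rw [Pi.smul_apply, h1, smul_zero]))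

theorem U_stable (d : ℕ) (χ : Cf n m × Fin m → ℂ) (hχ : χ ∈ suppSub (Um' (n := n) (m := m) d)) :
    Uop n m χ ∈ suppSub (Um (n := n) (m := m) d) := by
  intro A hA
  have hA' : (∑ b : Fin n, ∑ j : Fin m,
    if A b = some (some j) then χ (Function.update A b none, j) else 0) ≠ 0 := hA
  obtain ⟨b, _, hb⟩ := Finset.exists_ne_zero_of_sum_ne_zero hA'
  obtain ⟨j, _, hj⟩ := Finset.exists_ne_zero_of_sum_ne_zero hb
  by_cases h : A b = some (some j)
  · rw [if_pos h] at hj
    have h1 := hχ _ hj
    rw [← Um_update d (Function.update A b none) b j (by simp)] at h1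
    rw [Function.update_idem, ← h, Function.update_eq_self] at h1
    exact h1
  · rw [if_neg h] at hj
    exact absurd rfl hj

theorem U_stable' (d : ℕ) (f : Cf n m → ℂ) (hf : f ∈ suppSub (Um (n := n) (m := m) d)) :
    Uop' n m f ∈ suppSub (Um' (n := n) (m := m) d) := by
  intro q hq
  have hq' : (∑ b ∈ Finset.univ.filter (fun b => q.1 b = none),
    f (Function.update q.1 b (some (some q.2)))) ≠ 0 := hq
  obtain ⟨b, hb, hb'⟩ := Finset.exists_ne_zero_of_sum_ne_zero hq'
  rw [Finset.mem_filter] at hb
  exact (Um_update d q.1 b q.2 hb.2).1 (hf _ hb')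

theorem mon_update (α : Cf n m) (b : Fin n) (j : Fin m) (hb : α b = none) :
    mon (Function.update α b (some (some j))) = mon α * MvPolynomial.X (b, j) := by
  unfold mon
  rw [← Finset.mul_prod_erase Finset.univ _ (Finset.mem_univ b),
    ← Finset.mul_prod_erase Finset.univ (fun a => val a (α a)) (Finset.mem_univ b)]
  rw [Function.update_self, hb]
  simp only [val, one_mul]
  rw [mul_comm]
  congr 1
  refine Finset.prod_congr rfl fun a ha => ?_
  rw [Function.update_of_ne (Finset.ne_of_mem_erase ha)]

theorem mon_mul_mem (hRG : Stmt_RG) (r d : ℕ) (α : Cf n m) (j : Fin m) (h : Um' d (α, j))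
    (b : Fin n) (hb : α b ≠ none) : mon α * MvPolynomial.X (b, j) ∈ grI (UZ n m r) := by
  obtain ⟨h1, h2, h3, h4⟩ := h
  simp only at h1 h2 h3 h4
  rcases hcase : α b with _ | s
  · exact absurd hcase hb
  rcases s with _ | k
  · exfalso
    unfold tt at h2
    rw [Finset.card_eq_zero, Finset.filter_eq_empty_iff] at h2
    exact h2 (Finset.mem_univ b) hcase
  have hk : k ≠ j := by
    rintro rfl
    apply h4
    unfold cols
    rw [Finset.mem_filter]
    exact ⟨Finset.mem_univ _, b, hcase⟩
  unfold mon
  rw [← Finset.prod_erase_mul Finset.univ _ (Finset.mem_univ b), hcase, mul_assoc]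
  simp only [val]
  exact Ideal.mul_mem_left _ _ (row_mem hRG r b hk)

theorem Th_U (χ : Cf n m × Fin m → ℂ) :
    Th n m (Uop n m χ) = ∑ q : Cf n m × Fin m, χ q •
      ∑ b ∈ Finset.univ.filter (fun b => q.1 b = none),
        mon (Function.update q.1 b (some (some q.2))) := by
  have h := reindex (n := n) (m := m) (fun A q => χ q • mon A)
  simp only [Finset.smul_sum]
  rw [h]
  show ∑ A, (∑ b : Fin n, ∑ j : Fin m,
    if A b = some (some j) then χ (Function.update A b none, j) else 0) • mon A = _
  refine Finset.sum_congr rfl fun A _ => ?_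
  rw [Finset.sum_smul]
  refine Finset.sum_congr rfl fun b _ => ?_
  rw [Finset.sum_smul]
  refine Finset.sum_congr rfl fun j _ => ?_
  rw [ite_smul, zero_smul]

theorem Th_U_mem (hRG : Stmt_RG) (d : ℕ) (χ : Cf n m × Fin m → ℂ)
    (hχ : χ ∈ suppSub (Um' (n := n) (m := m) d)) :
    Th n m (Uop n m χ) ∈ grI (UZ n m m) := by
  rw [Th_U]
  refine Ideal.sum_mem _ fun q _ => ?_
  by_cases hq : χ q = 0
  · rw [hq, zero_smul]; exact Ideal.zero_mem _
  have hq' := hχ q hq
  rw [MvPolynomial.smul_eq_C_mul]
  apply Ideal.mul_mem_left
  have h1 : ∑ b ∈ Finset.univ.filter (fun b => q.1 b = none),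
        mon (Function.update q.1 b (some (some q.2))) =
      mon q.1 * ∑ b, MvPolynomial.X (b, q.2) -
        ∑ b ∈ Finset.univ.filter (fun b => ¬ q.1 b = none),
          mon q.1 * MvPolynomial.X (b, q.2) := by
    rw [Finset.mul_sum, ← Finset.sum_filter_add_sum_filter_not Finset.univ
      (fun b => q.1 b = none) (fun b => mon q.1 * MvPolynomial.X (b, q.2)), add_sub_cancel_right]
    refine Finset.sum_congr rfl fun b hb => ?_
    rw [Finset.mem_filter] at hb
    exact mon_update q.1 b q.2 hb.2
  rw [h1]
  apply Ideal.sub_mem
  · exact Ideal.mul_mem_left _ _ (col_sum_mem hRG q.2)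
  · refine Ideal.sum_mem _ fun b hb => ?_
    rw [Finset.mem_filter] at hb
    exact mon_mul_mem hRG m d q.1 q.2 hq' b hb.2

theorem stmt_LRED (hORT : Stmt_ORT) (hRG : Stmt_RG) : Stmt_LRED := by
  intro n m d φ hφ
  obtain ⟨φ0, hφ0, χ, hχ, h1, h2⟩ := hORT (Cf n m) (Cf n m × Fin m) (Uop n m) (Uop' n m)
    Uop_adj (suppSub (Um d)) (suppSub (Um' d)) (U_stable d) (U_stable' d) φ hφ
  refine ⟨φ0, hφ0, ?_, ?_⟩
  · intro α s
    rcases s with _ | j
    · refine Finset.sum_eq_zero fun b _ => ?_
      by_contra h
      have h3 := (hφ0 _ h).2.1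
      unfold tt at h3
      rw [Finset.card_eq_zero, Finset.filter_eq_empty_iff] at h3
      exact h3 (Finset.mem_univ b) (by simp)
    · exact congrFun h2 (α, j)
  · have h3 : Th n m φ - Th n m φ0 = Th n m (Uop n m χ) := by
      rw [h1, map_add, add_sub_cancel_left]
    rw [h3]
    exact Th_U_mem hRG d χ hχ

end Pool.RookLC.helper56
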